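import Mathlib
import Pool.Agent.R576.Fspda
import Pool.Agent.R576.FspdaNon
import Pool.Agent.R576.FspdaUp
import Pool.Agent.R576.FspdaWit

set_option autoImplicit false

/-!
MP_e3bf5d_lc, Q1: the first-move self-regulating pushdown automata form an infinite hierarchy,
`FSPDA_n ⊊ FSPDA_{n+1}` for every `n`.

* The inclusion holds over every input alphabet.
* `{a_0^m a_1^m ⋯ a_{2n+3}^m | m ≥ 1}` is in `FSPDA_{n+1}` and not in `FSPDA_n`.
-/

namespace Pool.Agent.Results.MP_e3bf5d_lc.StrictHierarchy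

open Pool.Agent.R576.Fspda

/-- `FSPDA_n` is contained in `FSPDA_{n+1}` over every alphabet, and for every `n` there is a finite
alphabet over which the containment is proper. -/
theorem result :
    (∀ (n : ℕ) (T : Type), FSPDA n T ⊆ FSPDA (n + 1) T) ∧
    (∀ n : ℕ, ∃ (r : ℕ) (K : Set (List (Fin r))),
      K ∈ FSPDA (n + 1) (Fin r) ∧ K ∉ FSPDA n (Fin r)) :=
  ⟨fun n T => FSPDA_mono n T, fun n => ⟨2 * (n + 1) + 2, Lr (2 * (n + 1) + 2),
    Wit.mem_FSPDA (n + 1), not_mem n _ (by omega)⟩⟩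

end Pool.Agent.Results.MP_e3bf5d_lc.StrictHierarchy
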